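import Pool.Agent.Lib.helper5.WSig

namespace Pool.Agent.Results.MP_0df558_gt.BetaD

theorem result : ∃ (X : Type) (_ : TopologicalSpace X) (_ : T35Space X), CompactSpace X ∧
    (∃ 𝒞 ℱ : Set (Set X), (∀ C ∈ 𝒞, IsCompact C) ∧ ⋃₀ 𝒞 = Set.univ ∧ ℱ.Countable ∧
      ∀ C ∈ 𝒞, ∀ U, IsOpen U → C ⊆ U → ∃ F ∈ ℱ, C ⊆ F ∧ F ⊆ U) ∧
    ¬ ∃ 𝒰 : Set (Set {f : X → ℝ // Continuous f}),
      (∀ U ∈ 𝒰, H5W.Coz U) ∧ H5W.T0Sep 𝒰 ∧ H5W.WSPF 𝒰 :=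
  ⟨Ultrafilter ℝ, inferInstance, inferInstance, inferInstance,
    ⟨{Set.univ}, {Set.univ}, by simp [isCompact_univ], by simp, by simp, by simp⟩,
    fun ⟨𝒰, h1, h2, h3⟩ => H5W.main 𝒰 h1 h2 h3⟩

end Pool.Agent.Results.MP_0df558_gt.BetaD
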